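import Mathlib
import Pool.Agent.H81.Flat.Final

set_option autoImplicit false

/-!
Isometric immersions of flat tori into the round 3-sphere of radius R: the image contains a pair
of antipodal points, that is, its extrinsic diameter is 2 R.
-/

namespace Pool.Agent.Results.MP_5d54f4_gt.ExtrinsicDiameter

open scoped ContDiff RealInnerProductSpace

/-- The Euclidean plane. -/
abbrev Plane : Type := EuclideanSpace ℝ (Fin 2)

/-- The Euclidean space of dimension four. -/
abbrev Space : Type := EuclideanSpace ℝ (Fin 4)

/-- A lattice in the plane: the subgroup generated by two linearly independent vectors. -/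
def IsLattice (L : AddSubgroup Plane) : Prop :=
  ∃ u v : Plane, LinearIndependent ℝ ![u, v] ∧ L = AddSubgroup.closure {u, v}

/-- The composition of a map of the torus (plane modulo L) into the space with the quotient
map. -/
def onPlane {L : AddSubgroup Plane} (f : Plane ⧸ L → Space) : Plane → Space :=
  fun x => f (QuotientAddGroup.mk x)

/-- The map f of the flat torus (plane modulo L) is an isometric immersion into the round sphere
of radius R and centre 0: it takes values in this sphere, it is smooth, and the pull-back of the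
metric of the sphere (induced from the Euclidean space) is the flat metric. -/
structure IsIsometricImmersion {L : AddSubgroup Plane} (R : ℝ) (f : Plane ⧸ L → Space) : Prop where
  norm_eq : ∀ p, ‖f p‖ = R
  smooth : ContDiff ℝ ∞ (onPlane f)
  isometric : ∀ x v w : Plane, ⟪fderiv ℝ (onPlane f) x v, fderiv ℝ (onPlane f) x w⟫ = ⟪v, w⟫

theorem antipodal (L : AddSubgroup Plane) (hL : IsLattice L) {R : ℝ} (hR : 0 < R)
    (f : Plane ⧸ L → Space) (hf : IsIsometricImmersion R f) :
    ∃ p q : Plane ⧸ L, f q = -f p := by
  obtain ⟨u, v, hind, rfl⟩ := hL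
  have hR0 : R ≠ 0 := hR.ne'
  set F : Plane → Space := onPlane f with hF
  have hper : ∀ l ∈ AddSubgroup.closure ({u, v} : Set Plane), ∀ x, F (x + l) = F x := by
    intro l hl x
    have : (QuotientAddGroup.mk (x + l) : Plane ⧸ AddSubgroup.closure ({u, v} : Set Plane)) =
        QuotientAddGroup.mk x := by
      rw [eq_comm, QuotientAddGroup.eq]; simpa using hl
    simp only [hF, onPlane, this]
  have hu : u ∈ AddSubgroup.closure ({u, v} : Set Plane) :=
    AddSubgroup.subset_closure (by simp)
  have hv : v ∈ AddSubgroup.closure ({u, v} : Set Plane) :=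
    AddSubgroup.subset_closure (by simp)
  have hnorm : ∀ x, ‖F x‖ = R := fun x => hf.norm_eq _
  have hiso : ∀ x w, ‖fderiv ℝ F x w‖ = ‖w‖ := by
    intro x w
    have h := hf.isometric x w w
    rw [real_inner_self_eq_norm_sq, real_inner_self_eq_norm_sq] at h
    exact (sq_eq_sq₀ (norm_nonneg _) (norm_nonneg _)).1 h
  have hdF : Differentiable ℝ F := hf.smooth.differentiable (by simp)
  set G : Plane → Space := fun x => R⁻¹ • F (R • x) with hG
  have hGs : ContDiff ℝ ∞ G := (hf.smooth.comp (contDiff_const_smul R)).const_smul R⁻¹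
  have hder : ∀ x w, fderiv ℝ G x w = fderiv ℝ F (R • x) w := by
    intro x w
    have h1 : HasFDerivAt (fun x : Plane => R • x) (R • ContinuousLinearMap.id ℝ Plane) x :=
      (hasFDerivAt_id x).const_smul R
    have h2 : HasFDerivAt G (R⁻¹ • ((fderiv ℝ F (R • x)).comp
        (R • ContinuousLinearMap.id ℝ Plane))) x :=
      ((hdF (R • x)).hasFDerivAt.comp x h1).const_smul R⁻¹
    rw [h2.fderiv]
    simp [smul_smul, hR0]
  have hind' : LinearIndependent ℝ ![R⁻¹ • u, R⁻¹ • v] := by
    rw [LinearIndependent.pair_iff] at hind ⊢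
    intro s t hst
    have h := hind (s * R⁻¹) (t * R⁻¹) (by rw [← smul_smul, ← smul_smul]; exact hst)
    exact ⟨by simpa [hR0] using h.1, by simpa [hR0] using h.2⟩
  obtain ⟨x, y, hxy⟩ := Pool.Agent.H81.Flat.main (R⁻¹ • u) (R⁻¹ • v) G hind'
    (fun n => hGs.of_le (by exact_mod_cast le_top))
    (fun x => by
      constructor
      · simp only [hG, smul_add, smul_smul, mul_inv_cancel₀ hR0, one_smul, hper u hu]
      · simp only [hG, smul_add, smul_smul, mul_inv_cancel₀ hR0, one_smul, hper v hv])
    (fun x => by
      simp only [hG, norm_smul, hnorm, norm_inv, Real.norm_eq_abs, abs_of_pos hR]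
      exact inv_mul_cancel₀ hR0)
    (fun x w => by rw [hder]; exact hiso _ _)
  refine ⟨QuotientAddGroup.mk (R • x), QuotientAddGroup.mk (R • y), ?_⟩
  have h3 : R⁻¹ • F (R • y) = R⁻¹ • (-F (R • x)) := by rw [smul_neg]; exact hxy
  exact smul_right_injective Space (inv_ne_zero hR0) h3

/-- For every lattice in the plane, every R > 0 and every isometric immersion f of the flat torus
into the round 3-sphere of radius R, the image of f contains a pair of antipodal points; so the
diameter of the image in the Euclidean space of dimension four is 2 R, the largest possible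
value. -/
theorem result (L : AddSubgroup Plane) (hL : IsLattice L) (R : ℝ) (hR : 0 < R)
    (f : Plane ⧸ L → Space) (hf : IsIsometricImmersion R f) :
    (∃ p q : Plane ⧸ L, f q = -f p) ∧ Metric.diam (Set.range f) = 2 * R := by
  obtain ⟨p, q, hpq⟩ := antipodal L hL hR f hf
  refine ⟨⟨p, q, hpq⟩, ?_⟩
  have hn : ∀ a, ‖f a‖ = R := hf.norm_eq
  have hle : ∀ a b, dist (f a) (f b) ≤ 2 * R := by
    intro a b
    calc dist (f a) (f b) = ‖f a - f b‖ := dist_eq_norm _ _
      _ ≤ ‖f a‖ + ‖f b‖ := norm_sub_le _ _
      _ = 2 * R := by rw [hn, hn]; ring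
  have hbd : Bornology.IsBounded (Set.range f) := by
    rw [Metric.isBounded_iff]
    refine ⟨2 * R, ?_⟩
    rintro _ ⟨a, rfl⟩ _ ⟨b, rfl⟩
    exact hle a b
  apply le_antisymm
  · refine Metric.diam_le_of_forall_dist_le (by positivity) ?_
    rintro _ ⟨a, rfl⟩ _ ⟨b, rfl⟩
    exact hle a b
  · have h1 : dist (f q) (f p) = 2 * R := by
      rw [hpq, dist_eq_norm]
      have : -f p - f p = (-2 : ℝ) • f p := by
        rw [neg_smul, two_smul]; abel
      rw [this, norm_smul, hn]
      norm_num
    rw [← h1]
    exact Metric.dist_le_diam_of_mem hbd ⟨q, rfl⟩ ⟨p, rfl⟩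

end Pool.Agent.Results.MP_5d54f4_gt.ExtrinsicDiameter
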